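import Pool.Agent.Q139.Lim.Main

/-!
# The extremal rainbow and monochromatic proportions of a 3-term equation converge

For all positive integers `a, b, c` the maximal proportion of rainbow solutions of `a x + b y = c z` in
`[n] = {1, …, n}` over all 3-colourings (surjective maps to three colours), and the minimal proportion of
monochromatic solutions, have limits as `n → ∞`.

Proof.  (1) Almost periodicity (the sampling argument of Croot and Sisask and the pigeonhole principle): for every
`ε > 0` there is a bound `K` such that for every colouring of `[n]`, `n ≥ K`, there is a positive `L ≤ K` for which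
the number of solutions of `a x + b y = c z + t` with given colours of `x, y, z` changes by at most `ε n²` when `t` is
replaced by `t + L`.  (2) Transfer: let `q = 1 + L c s`.  Every integer is uniquely `x = q x' - L u` with `0 ≤ u < q`,
and `a x + b y = c z` is equivalent to `a x' + b y' = c z' + L j` and `a u + b v - c w = q j`.  Here `(u, v)` determines
`w` and `j`, and `j` is bounded.  So the colouring `x ↦ f(x')` of `[m]`, `m = q (n - L)`, has almost the same
proportions of coloured solutions of every pattern as the colouring `f` of `[n]`.  Every large `m` is close to a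
number of this form.
-/

set_option autoImplicit false

open Finset Filter Topology

namespace Pool.Agent.Results.MP_0bef22_co.LimitsExist

/-- `T_n(E)`: the solutions of `E : a x + b y = c z` in `[n]³`, `[n] = {1, …, n}` -/
def T (a b c n : ℕ) : Finset (ℕ × ℕ × ℕ) :=
  (Icc 1 n ×ˢ Icc 1 n ×ˢ Icc 1 n).filter fun p => a * p.1 + b * p.2.1 = c * p.2.2

/-- `f` is a 3-colouring of `[n]`: a map which takes all three values on `[n]` (its values outside `[n]` do not
matter) -/
def IsColoring (n : ℕ) (f : ℕ → Fin 3) : Prop := ∀ i, ∃ x ∈ Icc 1 n, f x = i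

/-- the proportion `rb_f(E)` of the rainbow solutions -/
noncomputable def rb (a b c n : ℕ) (f : ℕ → Fin 3) : ℝ :=
  (((T a b c n).filter fun p => f p.1 ≠ f p.2.1 ∧ f p.2.1 ≠ f p.2.2 ∧ f p.1 ≠ f p.2.2).card : ℝ) / (T a b c n).card

/-- the proportion `mono_f(E)` of the monochromatic solutions -/
noncomputable def mono (a b c n : ℕ) (f : ℕ → Fin 3) : ℝ :=
  (((T a b c n).filter fun p => f p.1 = f p.2.1 ∧ f p.2.1 = f p.2.2).card : ℝ) / (T a b c n).card

/-- `rb_[n](E)`, the maximum of `rb_f(E)` over all 3-colourings `f` of `[n]` (a finite set of values) -/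
noncomputable def rbMax (a b c n : ℕ) : ℝ := sSup {r | ∃ f, IsColoring n f ∧ r = rb a b c n f}

/-- `m_[n](E)`, the minimum of `mono_f(E)` over all 3-colourings `f` of `[n]` -/
noncomputable def monoMin (a b c n : ℕ) : ℝ := sInf {r | ∃ f, IsColoring n f ∧ r = mono a b c n f}

open Pool.Agent.Q139.Lim

theorem T_eq (a b c n : ℕ) (f : ℕ → Fin 3) : T a b c n = sol f a b c n univ 0 := by
  ext p
  simp only [T, sol, mem_filter, mem_univ, and_true, add_zero]
  constructor
  · rintro ⟨h1, h2⟩
    exact ⟨h1, by exact_mod_cast h2⟩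
  · rintro ⟨h1, h2⟩
    exact ⟨h1, by exact_mod_cast h2⟩

theorem rb_eq (a b c n : ℕ) (f : ℕ → Fin 3) :
    (T a b c n).filter (fun p => f p.1 ≠ f p.2.1 ∧ f p.2.1 ≠ f p.2.2 ∧ f p.1 ≠ f p.2.2) =
      sol f a b c n (univ.filter fun q => q.1 ≠ q.2.1 ∧ q.2.1 ≠ q.2.2 ∧ q.1 ≠ q.2.2) 0 := by
  ext p
  simp only [T, sol, mem_filter, mem_univ, true_and, add_zero]
  constructor
  · rintro ⟨⟨h1, h2⟩, h3⟩
    exact ⟨h1, by exact_mod_cast h2, h3⟩
  · rintro ⟨h1, h2, h3⟩
    exact ⟨⟨h1, by exact_mod_cast h2⟩, h3⟩

theorem mono_eq (a b c n : ℕ) (f : ℕ → Fin 3) :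
    mono a b c n f = 1 - ((sol f a b c n (univ.filter fun q => ¬ (q.1 = q.2.1 ∧ q.2.1 = q.2.2)) 0).card : ℝ) /
      (T a b c n).card ∨ (T a b c n).card = 0 := by
  rcases Nat.eq_zero_or_pos (T a b c n).card with h | h
  · exact Or.inr h
  · left
    have h1 : (T a b c n).filter (fun p => ¬ (f p.1 = f p.2.1 ∧ f p.2.1 = f p.2.2)) =
        sol f a b c n (univ.filter fun q => ¬ (q.1 = q.2.1 ∧ q.2.1 = q.2.2)) 0 := by
      ext p
      simp only [T, sol, mem_filter, mem_univ, true_and, add_zero]
      constructor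
      · rintro ⟨⟨h1, h2⟩, h3⟩
        exact ⟨h1, by exact_mod_cast h2, h3⟩
      · rintro ⟨h1, h2, h3⟩
        exact ⟨⟨h1, by exact_mod_cast h2⟩, h3⟩
    have h2 := card_filter_add_card_filter_not (s := T a b c n) (fun p => f p.1 = f p.2.1 ∧ f p.2.1 = f p.2.2)
    rw [h1] at h2
    have h3 : (((T a b c n).filter fun p => f p.1 = f p.2.1 ∧ f p.2.1 = f p.2.2).card : ℝ) +
        (sol f a b c n (univ.filter fun q => ¬ (q.1 = q.2.1 ∧ q.2.1 = q.2.2)) 0).card = (T a b c n).card := by
      exact_mod_cast h2
    have hT : (0 : ℝ) < (T a b c n).card := by exact_mod_cast h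
    unfold mono
    rw [eq_sub_iff_add_eq, ← add_div, h3, div_self hT.ne']

/-- **Q1 and Q2.** For all positive integers `a, b, c` both limits exist. -/
theorem result (a b c : ℕ) (ha : 0 < a) (hb : 0 < b) (hc : 0 < c) :
    (∃ ℓ : ℝ, Tendsto (fun n => rbMax a b c n) atTop (𝓝 ℓ)) ∧
      ∃ ℓ : ℝ, Tendsto (fun n => monoMin a b c n) atTop (𝓝 ℓ) := by
  have hcol : ∀ n ≥ 3, ∃ f, IsColoring n f := by
    intro n hn
    refine ⟨fun x => if x = 1 then 0 else if x = 2 then 1 else 2, fun i => ?_⟩
    fin_cases i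
    · exact ⟨1, by simp; omega, by simp⟩
    · exact ⟨2, by simp; omega, by simp⟩
    · exact ⟨3, by simp; omega, by simp⟩
  constructor
  · refine lim_exists _ ?_ ?_ ?_
    · rintro n r ⟨f, -, rfl⟩
      unfold rb
      refine ⟨le_trans (by norm_num) (by positivity : (0 : ℝ) ≤ _), div_le_one_of_le₀ ?_ (by positivity)⟩
      exact_mod_cast card_filter_le _ _
    · filter_upwards [eventually_ge_atTop 3] with n hn
      obtain ⟨f, hf⟩ := hcol n hn
      exact ⟨_, f, hf, rfl⟩
    · intro ε hε
      obtain ⟨N0, hN0⟩ := transfer a b c ha hb hc ε hε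
      refine ⟨N0, fun n hn r hr => ?_⟩
      obtain ⟨f, -, rfl⟩ := hr
      obtain ⟨M0, hM0⟩ := hN0 n hn f
      refine ⟨M0, fun m hm => ?_⟩
      obtain ⟨g, hg, h⟩ := hM0 m hm
      refine ⟨_, ⟨g, hg, rfl⟩, ?_⟩
      unfold rb
      rw [rb_eq, rb_eq]
      nth_rw 1 [T_eq a b c n f]
      rw [T_eq a b c m g]
      exact h _
  · have key : ∃ ℓ : ℝ, Tendsto (fun n => sSup {r | ∃ f, IsColoring n f ∧ r = - mono a b c n f}) atTop (𝓝 ℓ) := by
      refine lim_exists _ ?_ ?_ ?_
      · rintro n r ⟨f, -, rfl⟩
        unfold mono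
        have h1 : (0 : ℝ) ≤ (((T a b c n).filter fun p => f p.1 = f p.2.1 ∧ f p.2.1 = f p.2.2).card : ℝ) / (T a b c n).card := by
          positivity
        have h2 : (((T a b c n).filter fun p => f p.1 = f p.2.1 ∧ f p.2.1 = f p.2.2).card : ℝ) / (T a b c n).card ≤ 1 := by
          refine div_le_one_of_le₀ ?_ (by positivity)
          exact_mod_cast card_filter_le _ _
        constructor <;> linarith
      · filter_upwards [eventually_ge_atTop 3] with n hn
        obtain ⟨f, hf⟩ := hcol n hn
        exact ⟨_, f, hf, rfl⟩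
      · intro ε hε
        obtain ⟨N0, hN0⟩ := transfer a b c ha hb hc ε hε
        refine ⟨max N0 (a + b + c), fun n hn r hr => ?_⟩
        obtain ⟨f, -, rfl⟩ := hr
        obtain ⟨M0, hM0⟩ := hN0 n ((le_max_left _ _).trans hn) f
        refine ⟨max M0 (a + b + c), fun m hm => ?_⟩
        obtain ⟨g, hg, h⟩ := hM0 m ((le_max_left _ _).trans hm)
        refine ⟨_, ⟨g, hg, rfl⟩, ?_⟩
        have hT : ∀ (k : ℕ) (f : ℕ → Fin 3), a + b + c ≤ k → (T a b c k).card ≠ 0 := by
          intro k f hk h0
          have h1 := many f a b c k ha hb hc hk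
          rw [← T_eq, h0] at h1
          have h2 : (0 : ℝ) < k := by
            have : 0 < k := by omega
            exact_mod_cast this
          have h3 : (0 : ℝ) < (k : ℝ) ^ 2 / (4 * ((a + b + c : ℕ) : ℝ) ^ 2) := by
            have : (0 : ℝ) < ((a + b + c : ℕ) : ℝ) := by
              have : 0 < a + b + c := by omega
              exact_mod_cast this
            positivity
          simp only [Nat.cast_zero] at h1
          linarith
        have e1 := (mono_eq a b c n f).resolve_right (hT n f ((le_max_right _ _).trans hn))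
        have e2 := (mono_eq a b c m g).resolve_right (hT m g ((le_max_right _ _).trans hm))
        have h4 := h (univ.filter fun q => ¬ (q.1 = q.2.1 ∧ q.2.1 = q.2.2))
        rw [← T_eq, ← T_eq] at h4
        rw [e1, e2]
        linarith
    obtain ⟨ℓ, hℓ⟩ := key
    refine ⟨-ℓ, ?_⟩
    have e : (fun n => monoMin a b c n) = fun n => - sSup {r | ∃ f, IsColoring n f ∧ r = - mono a b c n f} := by
      funext n
      unfold monoMin
      rw [Real.sInf_def]
      congr 2
      ext r
      simp only [Set.mem_neg, Set.mem_ofPred_eq]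
      constructor
      · rintro ⟨f, h1, h2⟩
        exact ⟨f, h1, by linarith⟩
      · rintro ⟨f, h1, h2⟩
        exact ⟨f, h1, by linarith⟩
    rw [e]
    exact hℓ.neg

end Pool.Agent.Results.MP_0bef22_co.LimitsExist
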